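import Pool.Agent.H7.CP.Targets

/-!
# MP_e37c09_lc: row CD4 of `cap_modules`: definability of `Hc` and `Sg`
-/

open Ordinal Cardinal Order Set
open scoped ZFSet

universe u

namespace Pool.Agent.H48.CP.CD4

open _root_.HD

theorem do_E {en : Ordinal.{u} → ZFSet.{u}} (hen : EN en) (c : Ordinal.{u}) (i : ℕ) :
    DO.{u} fun w => w i ∈ E en c := by
  refine DO.sub (R := fun x w => w i ∈ E en x) c ?_
  exact DO.s2 (X := fun a b => a ∈ E en b) (All.ea en hen).1 (i + 1) 0

theorem do_CfM (μ : Ordinal.{u}) (i : ℕ) : DO.{u} fun w => Cf μ (w i) := by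
  refine DO.sub (R := fun x w => Cf x (w i)) μ ?_
  exact do_Cf All.la 0 (i + 1)

theorem do_PosM (μ : Ordinal.{u}) (i : ℕ) (X : Ordinal.{u} → (ℕ → Ordinal.{u}) → Prop)
    (hX : DO fun w => X (w 0) (fun n => w (n + 1))) : DO.{u} fun w => Pos μ (w i) {a | X a w} := by
  refine DO.sub (R := fun x w => Pos x (w i) {a | X a w}) μ ?_
  refine All.da 0 (i + 1) (fun a w => X a (fun n => w (n + 1))) ?_
  refine (hX.ren (fun n => if n = 0 then 0 else n + 1)).congr fun w => ?_
  simp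

theorem X : T_CD4.{u} := by
  intro en hen M c _ A hA
  refine ⟨⟨?_, ?_⟩, ?_⟩
  · intro ν X Y hXY
    unfold Hc
    rw [hA.ext ν X Y hXY]
    refine or_congr Iff.rfl (Pos.congr fun b hb => ?_)
    have h1 := hA.ext b X Y fun a ha => hXY a (ha.trans hb)
    show (b ∈ E en c ∧ A b X) ↔ (b ∈ E en c ∧ A b Y)
    rw [h1]
  · intro Y hY i
    unfold Hc
    refine DO.or ?_ ?_
    · exact (do_E hen c i).and ((do_CfM M.ord i).and (hA.dfn Y hY i))
    · refine do_PosM M.ord i (fun ξ w => ξ ∈ E en c ∧ A ξ {a | Y a w}) ?_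
      refine (do_E hen c 0).and ?_
      refine hA.dfn (fun a w => Y a (fun n => w (n + 1))) ?_ 0
      refine (hY.ren (fun n => if n = 0 then 0 else n + 1)).congr fun w => ?_
      simp
  · show DO fun w => (w 0 ∈ E en c ∧ Cf M.ord (w 0)) ∨ Pos M.ord (w 0) (E en c)
    refine ((do_E hen c 0).and (do_CfM M.ord 0)).or ?_
    exact do_PosM M.ord 0 (fun ξ _ => ξ ∈ E en c) (do_E hen c 0)

end Pool.Agent.H48.CP.CD4
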