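import Pool.Agent.H7.CP.Targets

/-!
# MP_e37c09_lc: row NRM of `cap_modules`: reflection of null sets
-/

open Ordinal Cardinal Order Set
open scoped ZFSet

universe u

namespace Pool.Agent.H48.CP.NRM

open _root_.HD

theorem X : T_NRM.{u} := by
  intro M K _ hK _ hK0 X hX
  unfold Pos at hX
  push Not at hX
  obtain ⟨B, hB, hBX⟩ := hX
  have hex : ∀ x : Ordinal.{u}, ∃ y, x < K.ord → y < K.ord ∧ x < y ∧ y ∈ B := by
    intro x
    by_cases hx : x < K.ord
    · obtain ⟨b, h1, h2, h3⟩ := hB.unb x hx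
      exact ⟨b, fun _ => ⟨h1, h2, h3⟩⟩
    · exact ⟨0, fun h => absurd h hx⟩
  choose G hG using hex
  have hC1 := Pool.Agent.H65.HD.CB.cb K hK hK0 (fun x _ => G x) (fun x hx _ _ => (hG x hx).1)
  have hcofK : ℵ₀ < K.ord.cof := by
    rw [hK.cof_ord]
    exact hK0
  refine ⟨_, All.ci K.ord _ B hcofK hC1 hB, fun ν hν hνK hcof hpos => ?_,
    fun ν hν hνK hcf hνX => ?_⟩
  · have hν1 := hν.1
    have hcl : Clb ν B := by
      refine ⟨fun a ha => ?_, fun x hx h0 h => ?_⟩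
      · obtain ⟨h1, h2, h3⟩ := hG a (ha.trans hνK)
        exact ⟨G a, hν1.2 a ha a ha, h2, h3⟩
      · exact hB.cls x (hx.trans hνK) h0 h
    obtain ⟨b, hb, h1, h2, h3⟩ := hpos B hcl
    exact hBX b (hb.trans hνK) h1 h2 h3
  · exact hBX ν hνK hν.2 hνX hcf

end Pool.Agent.H48.CP.NRM
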